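import Mathlib

/-!
# Euler's identity for the product of the `1 - 2 ^ (-i)`
-/

set_option autoImplicit false

namespace Pool.Agent.U46.GZ

open Finset Filter

noncomputable section

/-- `1 / ∏_{1 ≤ i ≤ k} (2 ^ i - 1)` -/
def ak (k : ℕ) : ℝ := ∏ i ∈ range k, (1 / ((2 : ℝ) ^ (i + 1) - 1))

theorem den_pos (k : ℕ) : 1 ≤ (2 : ℝ) ^ (k + 1) - 1 := by
  have h : (1 : ℝ) ≤ 2 ^ k := one_le_pow₀ (by norm_num)
  rw [pow_succ]
  linarith

theorem den_three (k : ℕ) (hk : 1 ≤ k) : 3 ≤ (2 : ℝ) ^ (k + 1) - 1 := by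
  have h : (2 : ℝ) ^ 1 ≤ 2 ^ k := pow_le_pow_right₀ (by norm_num) hk
  rw [pow_succ]
  linarith

theorem ak_succ (k : ℕ) : ak (k + 1) = ak k / ((2 : ℝ) ^ (k + 1) - 1) := by
  unfold ak
  rw [prod_range_succ, mul_one_div]

theorem ak_pos (k : ℕ) : 0 < ak k := by
  induction k with
  | zero => simp [ak]
  | succ k ih =>
    rw [ak_succ]
    exact div_pos ih (by linarith [den_pos k])

theorem ak_rel (k : ℕ) : ak k = ak (k + 1) * 2 ^ (k + 1) - ak (k + 1) := by
  have h := den_pos k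
  rw [ak_succ]
  field_simp

theorem ak_third (k : ℕ) (hk : 1 ≤ k) : ak (k + 1) ≤ ak k * (1 / 3) := by
  rw [ak_succ, div_eq_mul_one_div]
  refine mul_le_mul_of_nonneg_left ?_ (ak_pos k).le
  exact one_div_le_one_div_of_le (by norm_num) (den_three k hk)

theorem ak_geom (k j : ℕ) (hk : 1 ≤ k) : ak (k + j) ≤ ak k * (1 / 3) ^ j := by
  induction j with
  | zero => simp
  | succ j ih =>
    have h := ak_third (k + j) (by omega)
    rw [← add_assoc, pow_succ, ← mul_assoc]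
    refine h.trans ?_
    exact mul_le_mul_of_nonneg_right ih (by norm_num)

theorem summable_ak : Summable ak := by
  rw [← summable_nat_add_iff 1]
  refine Summable.of_nonneg_of_le (fun j => (ak_pos _).le) (fun j => ?_)
    ((summable_geometric_of_lt_one (by norm_num : (0 : ℝ) ≤ 1 / 3) (by norm_num)).mul_left (ak 1))
  rw [add_comm]
  exact ak_geom 1 j le_rfl

/-- the series `F(z)` -/
def trm (z : ℝ) (k : ℕ) : ℝ := (-1 : ℝ) ^ k * ak k * z ^ k

theorem abs_trm {z : ℝ} (h0 : 0 ≤ z) (h1 : z ≤ 1) (k : ℕ) : |trm z k| ≤ ak k := by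
  unfold trm
  rw [abs_mul, abs_mul, abs_pow, abs_neg, abs_one, one_pow, one_mul, abs_of_pos (ak_pos k),
    abs_of_nonneg (pow_nonneg h0 k)]
  exact mul_le_of_le_one_right (ak_pos k).le (pow_le_one₀ h0 h1)

theorem summable_trm {z : ℝ} (h0 : 0 ≤ z) (h1 : z ≤ 1) : Summable (trm z) :=
  Summable.of_norm_bounded summable_ak fun k => by
    rw [Real.norm_eq_abs]
    exact abs_trm h0 h1 k

theorem trm_rel (z : ℝ) (k : ℕ) :
    trm z (k + 1) = trm (z / 2) (k + 1) - z / 2 * trm (z / 2) k := by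
  unfold trm
  have h := ak_rel k
  have h2 : z ^ (k + 1) = 2 ^ (k + 1) * (z / 2) ^ (k + 1) := by
    rw [← mul_pow]
    congr 1
    ring
  rw [h2, pow_succ (-1 : ℝ) k, h, pow_succ (z / 2) k]
  ring

theorem functional {z : ℝ} (h0 : 0 ≤ z) (h1 : z ≤ 1) :
    ∑' k, trm z k = (1 - z / 2) * ∑' k, trm (z / 2) k := by
  have s1 := summable_trm h0 h1
  have s2 := summable_trm (z := z / 2) (by linarith) (by linarith)
  have e1 := s1.tsum_eq_zero_add
  have e2 := s2.tsum_eq_zero_add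
  have s3 : Summable fun k => trm (z / 2) (k + 1) := (summable_nat_add_iff 1).2 s2
  have e3 : ∑' k, trm z (k + 1) = ∑' k, trm (z / 2) (k + 1) - z / 2 * ∑' k, trm (z / 2) k := by
    rw [← tsum_mul_left, ← s3.tsum_sub (s2.mul_left _)]
    exact tsum_congr fun k => trm_rel z k
  have z1 : trm z 0 = 1 := by simp [trm, ak]
  have z2 : trm (z / 2) 0 = 1 := by simp [trm, ak]
  rw [e1, e3, z1]
  have e4 : ∑' k, trm (z / 2) (k + 1) = ∑' k, trm (z / 2) k - 1 := by
    rw [e2, z2]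
    ring
  rw [e4]
  ring

theorem partial_prod (n : ℕ) :
    (∏ i ∈ range n, (1 - (1 / 2 : ℝ) ^ (i + 1))) * ∑' k, trm ((1 / 2) ^ n) k =
      ∑' k, trm 1 k := by
  induction n with
  | zero => simp
  | succ n ih =>
    rw [← ih, prod_range_succ, functional (z := (1 / 2) ^ n) (by positivity)
      (pow_le_one₀ (by norm_num) (by norm_num)), pow_succ]
    have h : (1 / 2 : ℝ) ^ n / 2 = (1 / 2) ^ n * (1 / 2) := by ring
    rw [h]
    ring

theorem tendsto_one : Tendsto (fun n : ℕ => ∑' k, trm ((1 / 2) ^ n) k) atTop (nhds 1) := by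
  have h1 : ∀ n : ℕ, |∑' k, trm ((1 / 2) ^ n) k - 1| ≤ (1 / 2 : ℝ) ^ n * ∑' k, ak (k + 1) := by
    intro n
    have h0 : (0 : ℝ) ≤ (1 / 2) ^ n := by positivity
    have h1 : (1 / 2 : ℝ) ^ n ≤ 1 := pow_le_one₀ (by norm_num) (by norm_num)
    have s := summable_trm h0 h1
    have e := s.tsum_eq_zero_add
    have z1 : trm ((1 / 2) ^ n) 0 = 1 := by simp [trm, ak]
    rw [e, z1, add_sub_cancel_left]
    have s3 : Summable fun k => trm ((1 / 2) ^ n) (k + 1) := (summable_nat_add_iff 1).2 s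
    have s4 : Summable fun k => ak (k + 1) := (summable_nat_add_iff 1).2 summable_ak
    rw [← tsum_mul_left, ← Real.norm_eq_abs]
    refine tsum_of_norm_bounded (s4.mul_left _).hasSum fun k => ?_
    rw [Real.norm_eq_abs]
    unfold trm
    rw [abs_mul, abs_mul, abs_pow, abs_neg, abs_one, one_pow, one_mul, abs_of_pos (ak_pos _),
      abs_of_nonneg (pow_nonneg h0 _), mul_comm, pow_succ]
    refine mul_le_mul_of_nonneg_right ?_ (ak_pos _).le
    exact mul_le_of_le_one_left h0 (pow_le_one₀ h0 h1)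
  rw [tendsto_iff_norm_sub_tendsto_zero]
  refine squeeze_zero (fun n => norm_nonneg _) h1 ?_
  have h2 := (tendsto_pow_atTop_nhds_zero_of_lt_one (by norm_num : (0 : ℝ) ≤ 1 / 2)
    (by norm_num)).mul_const (∑' k, ak (k + 1))
  rwa [zero_mul] at h2

theorem eta_eq : ∏' i : ℕ, (1 - (1 / 2 : ℝ) ^ (i + 1)) = ∑' k, trm 1 k := by
  have hm : Multipliable fun i : ℕ => (1 - (1 / 2 : ℝ) ^ (i + 1)) := by
    have h : Multipliable fun i : ℕ => (1 + -((1 / 2 : ℝ) ^ (i + 1))) := by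
      refine Real.multipliable_one_add_of_summable ?_
      refine Summable.neg ?_
      exact (summable_nat_add_iff 1).2
        (summable_geometric_of_lt_one (by norm_num : (0 : ℝ) ≤ 1 / 2) (by norm_num))
    simpa only [sub_eq_add_neg] using h
  have h1 := hm.hasProd.tendsto_prod_nat
  have h2 := h1.mul tendsto_one
  rw [mul_one] at h2
  refine tendsto_nhds_unique h2 ?_
  refine tendsto_const_nhds.congr fun n => ?_
  exact (partial_prod n).symm

theorem tail (K : ℕ) :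
    |∑ k ∈ range (K + 1), (-1 : ℝ) ^ k * ak k - ∏' i : ℕ, (1 - (1 / 2 : ℝ) ^ (i + 1))| ≤
      ak (K + 1) * (3 / 2) := by
  rw [eta_eq]
  have s := summable_trm (z := 1) (by norm_num) le_rfl
  have e := s.sum_add_tsum_nat_add (K + 1)
  have e1 : ∑ k ∈ range (K + 1), (-1 : ℝ) ^ k * ak k = ∑ k ∈ range (K + 1), trm 1 k := by
    refine sum_congr rfl fun k _ => ?_
    unfold trm
    rw [one_pow, mul_one]
  rw [e1, ← e, sub_add_cancel_left, abs_neg, ← Real.norm_eq_abs]
  have hg : HasSum (fun j : ℕ => ak (K + 1) * (1 / 3 : ℝ) ^ j) (ak (K + 1) * (3 / 2)) := by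
    have h := (hasSum_geometric_of_lt_one (by norm_num : (0 : ℝ) ≤ 1 / 3) (by norm_num)).mul_left
      (ak (K + 1))
    norm_num at h ⊢
    exact h
  refine tsum_of_norm_bounded hg fun j => ?_
  rw [Real.norm_eq_abs]
  refine (abs_trm (by norm_num) le_rfl _).trans ?_
  rw [add_comm j (K + 1)]
  exact ak_geom (K + 1) j (by omega)

theorem numeric : 0.2887 < ∏' i : ℕ, (1 - (1 / 2 : ℝ) ^ (i + 1)) ∧
    ∏' i : ℕ, (1 - (1 / 2 : ℝ) ^ (i + 1)) < 0.2888 := by
  have h := tail 5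
  rw [abs_le] at h
  have h1 : ∑ k ∈ range (5 + 1), (-1 : ℝ) ^ k * ak k =
      1 - 1 + 1 / 3 - 1 / 21 + 1 / 315 - 1 / 9765 := by
    simp only [ak, sum_range_succ, prod_range_succ, sum_range_zero, prod_range_zero]
    norm_num
  have h2 : ak (5 + 1) = 1 / 615195 := by
    simp only [ak, prod_range_succ, prod_range_zero]
    norm_num
  rw [h1, h2] at h
  constructor
  · have := h.2
    norm_num at this ⊢
    linarith
  · have := h.1
    norm_num at this ⊢
    linarith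

theorem main : (∀ K : ℕ, |∑ k ∈ range (K + 1), (-1 : ℝ) ^ k * ak k -
      ∏' i : ℕ, (1 - (1 / 2 : ℝ) ^ (i + 1))| ≤ (1 / 2 : ℝ) ^ K) ∧
    0.2887 < ∏' i : ℕ, (1 - (1 / 2 : ℝ) ^ (i + 1)) ∧
      ∏' i : ℕ, (1 - (1 / 2 : ℝ) ^ (i + 1)) < 0.2888 := by
  refine ⟨fun K => ?_, numeric⟩
  rcases Nat.eq_zero_or_pos K with rfl | hK
  · have h := numeric
    have h1 : ∑ k ∈ range (0 + 1), (-1 : ℝ) ^ k * ak k = 1 := by
      simp [ak]
    rw [h1, pow_zero, abs_le]
    constructor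
    · have := h.2
      norm_num at this ⊢
      linarith
    · have := h.1
      norm_num at this ⊢
      linarith
  · refine (tail K).trans ?_
    have h1 : ak (K + 1) ≤ (1 / 3) ^ K := by
      have h2 := ak_geom 1 K le_rfl
      have h3 : ak 1 = 1 := by
        simp only [ak, prod_range_succ, prod_range_zero]
        norm_num
      rw [h3, one_mul, add_comm] at h2
      exact h2
    obtain ⟨k, rfl⟩ := Nat.exists_eq_add_of_le' hK
    have h4 : (1 / 3 : ℝ) ^ (k + 1) * (3 / 2) ≤ (1 / 2) ^ (k + 1) := by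
      have h5 : (1 / 3 : ℝ) ^ k ≤ (1 / 2) ^ k :=
        pow_le_pow_left₀ (by norm_num) (by norm_num) k
      rw [pow_succ, pow_succ]
      linarith
    refine le_trans ?_ h4
    exact mul_le_mul_of_nonneg_right h1 (by norm_num)

end

end Pool.Agent.U46.GZ
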