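import Mathlib

/-!
# The product formula for explicit Hilbert symbols of integers
-/

set_option autoImplicit false
set_option linter.unusedVariables false

open scoped Classical

namespace Pool.Agent.U46.GZ

open Finset hiding ext
open Filter

/-- `1` if `p` is `3` modulo `4` -/
def s4 (p : ℕ) : ZMod 2 := if p % 4 = 3 then 1 else 0

/-- the symbol of an integer modulo a prime -/
noncomputable def nz (p : ℕ) (z : ℤ) : ZMod 2 := if IsSquare (z : ZMod p) then 0 else 1

/-- the Hilbert symbol at an odd prime -/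
noncomputable def hp (p : ℕ) (x y : ℤ) : ZMod 2 :=
  (padicValInt p x : ZMod 2) * (padicValInt p y : ZMod 2) * s4 p +
    (padicValInt p y : ZMod 2) * nz p (x / (p : ℤ) ^ padicValInt p x) +
    (padicValInt p x : ZMod 2) * nz p (y / (p : ℤ) ^ padicValInt p y)

/-- `(u - 1) / 2` for odd `u` -/
def e2 (u : ℤ) : ZMod 2 := if u % 4 = 3 then 1 else 0

/-- `(u² - 1) / 8` for odd `u` -/
def w2 (u : ℤ) : ZMod 2 := if u % 8 = 3 ∨ u % 8 = 5 then 1 else 0

/-- the Hilbert symbol at `2` -/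
noncomputable def h2 (x y : ℤ) : ZMod 2 :=
  e2 (x / 2 ^ padicValInt 2 x) * e2 (y / 2 ^ padicValInt 2 y) +
    (padicValInt 2 x : ZMod 2) * w2 (y / 2 ^ padicValInt 2 y) +
    (padicValInt 2 y : ZMod 2) * w2 (x / 2 ^ padicValInt 2 x)

/-- the Hilbert symbol at the real place -/
def hr (x y : ℤ) : ZMod 2 := if x < 0 ∧ y < 0 then 1 else 0

/-! ### unit parts -/

theorem up_mul_pow (p : ℕ) (x : ℤ) : (p : ℤ) ^ padicValInt p x * (x / (p : ℤ) ^ padicValInt p x) = x :=
  Int.mul_ediv_cancel' (padicValInt_dvd x)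

theorem up_ne (p : ℕ) [Fact p.Prime] {x : ℤ} (hx : x ≠ 0) :
    ¬ (p : ℤ) ∣ x / (p : ℤ) ^ padicValInt p x := by
  intro h
  have h1 : (p : ℤ) ^ (padicValInt p x + 1) ∣ x := by
    rw [pow_succ]
    calc (p : ℤ) ^ padicValInt p x * p ∣
        (p : ℤ) ^ padicValInt p x * (x / (p : ℤ) ^ padicValInt p x) := mul_dvd_mul_left _ h
      _ = x := up_mul_pow p x
  rw [padicValInt_dvd_iff] at h1
  rcases h1 with h1 | h1
  · exact hx h1
  · omega

theorem up_mul (p : ℕ) [Fact p.Prime] {x y : ℤ} (hx : x ≠ 0) (hy : y ≠ 0) :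
    x * y / (p : ℤ) ^ padicValInt p (x * y) =
      (x / (p : ℤ) ^ padicValInt p x) * (y / (p : ℤ) ^ padicValInt p y) := by
  have hp0 : (p : ℤ) ≠ 0 := by exact_mod_cast (Fact.out : p.Prime).ne_zero
  rw [padicValInt.mul hx hy, pow_add]
  refine Int.ediv_eq_of_eq_mul_right (mul_ne_zero (pow_ne_zero _ hp0) (pow_ne_zero _ hp0)) ?_
  conv_lhs => rw [← up_mul_pow p x, ← up_mul_pow p y]
  ring

/-! ### the local symbols are bimultiplicative and symmetric -/

theorem hr_comm (x y : ℤ) : hr x y = hr y x := by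
  unfold hr
  simp only [and_comm]

theorem h2_comm (x y : ℤ) : h2 x y = h2 y x := by
  unfold h2
  ring

theorem hp_comm (p : ℕ) (x y : ℤ) : hp p x y = hp p y x := by
  unfold hp
  ring

theorem hr_mul {x x' y : ℤ} (hx : x ≠ 0) (hx' : x' ≠ 0) : hr (x * x') y = hr x y + hr x' y := by
  unfold hr
  by_cases hy : y < 0
  · rcases lt_or_gt_of_ne hx with h | h <;> rcases lt_or_gt_of_ne hx' with h' | h'
    · have h1 : ¬ x * x' < 0 := not_lt.2 (mul_pos_of_neg_of_neg h h').le
      simp only [h1, h, h', hy, and_self, false_and, if_true, if_false]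
      decide
    · have h1 : x * x' < 0 := mul_neg_of_neg_of_pos h h'
      have h2 : ¬ x' < 0 := not_lt.2 h'.le
      simp only [h1, h, h2, hy, and_self, false_and, if_true, if_false]
      decide
    · have h1 : x * x' < 0 := mul_neg_of_pos_of_neg h h'
      have h2 : ¬ x < 0 := not_lt.2 h.le
      simp only [h1, h', h2, hy, and_self, false_and, if_true, if_false]
      decide
    · have h1 : ¬ x * x' < 0 := not_lt.2 (mul_pos h h').le
      have h2 : ¬ x < 0 := not_lt.2 h.le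
      have h3 : ¬ x' < 0 := not_lt.2 h'.le
      simp only [h1, h2, h3, hy, and_self, false_and, if_false]
      decide
  · simp only [hy, and_false, if_false]
    decide

theorem e2_mul {u v : ℤ} (hu : ¬ (2 : ℤ) ∣ u) (hv : ¬ (2 : ℤ) ∣ v) : e2 (u * v) = e2 u + e2 v := by
  have h1 : u % 4 = 1 ∨ u % 4 = 3 := by omega
  have h2 : v % 4 = 1 ∨ v % 4 = 3 := by omega
  unfold e2
  rw [Int.mul_emod]
  rcases h1 with h1 | h1 <;> rcases h2 with h2 | h2 <;> rw [h1, h2] <;> decide

theorem w2_mul {u v : ℤ} (hu : ¬ (2 : ℤ) ∣ u) (hv : ¬ (2 : ℤ) ∣ v) : w2 (u * v) = w2 u + w2 v := by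
  have h1 : u % 8 = 1 ∨ u % 8 = 3 ∨ u % 8 = 5 ∨ u % 8 = 7 := by omega
  have h2 : v % 8 = 1 ∨ v % 8 = 3 ∨ v % 8 = 5 ∨ v % 8 = 7 := by omega
  unfold w2
  rw [Int.mul_emod]
  rcases h1 with h1 | h1 | h1 | h1 <;> rcases h2 with h2 | h2 | h2 | h2 <;> rw [h1, h2] <;> decide

theorem h2_mul {x x' y : ℤ} (hx : x ≠ 0) (hx' : x' ≠ 0) :
    h2 (x * x') y = h2 x y + h2 x' y := by
  have h := up_mul 2 hx hx'
  have h1 := up_ne 2 hx
  have h2' := up_ne 2 hx'
  push_cast at h h1 h2'
  unfold h2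
  rw [h, e2_mul h1 h2', w2_mul h1 h2', padicValInt.mul hx hx']
  push_cast
  ring

theorem nz_mul (p : ℕ) [Fact p.Prime] {u v : ℤ} (hu : ¬ (p : ℤ) ∣ u) (hv : ¬ (p : ℤ) ∣ v) :
    nz p (u * v) = nz p u + nz p v := by
  have hu' : (u : ZMod p) ≠ 0 := by rwa [Ne, ZMod.intCast_zmod_eq_zero_iff_dvd]
  have hv' : (v : ZMod p) ≠ 0 := by rwa [Ne, ZMod.intCast_zmod_eq_zero_iff_dvd]
  have huv' : ((u * v : ℤ) : ZMod p) ≠ 0 := by
    rw [Int.cast_mul]
    exact mul_ne_zero hu' hv'
  have key : ∀ z : ℤ, (z : ZMod p) ≠ 0 → nz p z = if legendreSym p z = 1 then 0 else 1 := by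
    intro z hz
    unfold nz
    by_cases h : IsSquare (z : ZMod p)
    · rw [if_pos h, if_pos ((legendreSym.eq_one_iff p hz).2 h)]
    · rw [if_neg h, if_neg fun h1 => h ((legendreSym.eq_one_iff p hz).1 h1)]
  rw [key _ huv', key _ hu', key _ hv', legendreSym.mul]
  rcases legendreSym.eq_one_or_neg_one p hu' with h1 | h1 <;>
    rcases legendreSym.eq_one_or_neg_one p hv' with h2 | h2 <;> rw [h1, h2] <;> norm_num <;> decide

theorem hp_mul (p : ℕ) [Fact p.Prime] {x x' y : ℤ} (hx : x ≠ 0) (hx' : x' ≠ 0) :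
    hp p (x * x') y = hp p x y + hp p x' y := by
  unfold hp
  rw [up_mul p hx hx', nz_mul p (up_ne p hx) (up_ne p hx'), padicValInt.mul hx hx']
  push_cast
  ring

theorem hp_eq_zero (p : ℕ) {x y : ℤ} (hx : padicValInt p x = 0) (hy : padicValInt p y = 0) :
    hp p x y = 0 := by
  unfold hp
  rw [hx, hy]
  simp

/-! ### the sum over all places -/

/-- the sum over a finite set of odd primes -/
noncomputable def tot (P : Finset ℕ) (x y : ℤ) : ZMod 2 := hr x y + h2 x y + ∑ p ∈ P, hp p x y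

theorem val_eq_zero {p : ℕ} {x : ℤ} (h : ¬ (p : ℤ) ∣ x) : padicValInt p x = 0 := by
  by_contra h1
  refine h (dvd_trans (dvd_pow_self (p : ℤ) h1) (padicValInt_dvd x))

theorem tot_eq (P : Finset ℕ) {x y : ℤ} (hx : x ≠ 0) (hy : y ≠ 0)
    (hP : (x * y).natAbs.primeFactors.erase 2 ⊆ P) (hP' : ∀ p ∈ P, p.Prime ∧ p ≠ 2) :
    tot ((x * y).natAbs.primeFactors.erase 2) x y = tot P x y := by
  unfold tot
  congr 1
  refine sum_subset hP fun p hp hn => ?_
  obtain ⟨h1, h2⟩ := hP' p hp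
  have h3 : ¬ (p : ℤ) ∣ x * y := by
    intro h
    refine hn (mem_erase.2 ⟨h2, Nat.mem_primeFactors.2 ⟨h1, ?_, ?_⟩⟩)
    · exact Int.natCast_dvd.1 h
    · exact Int.natAbs_ne_zero.2 (mul_ne_zero hx hy)
  exact hp_eq_zero p (val_eq_zero fun h => h3 (h.mul_right _)) (val_eq_zero fun h => h3 (h.mul_left _))

theorem tot_comm (P : Finset ℕ) (x y : ℤ) : tot P x y = tot P y x := by
  unfold tot
  rw [hr_comm, h2_comm]
  congr 1
  exact sum_congr rfl fun p _ => hp_comm p x y

theorem tot_mul (P : Finset ℕ) (hP : ∀ p ∈ P, p.Prime) {x x' : ℤ} (y : ℤ) (hx : x ≠ 0)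
    (hx' : x' ≠ 0) : tot P (x * x') y = tot P x y + tot P x' y := by
  unfold tot
  rw [hr_mul hx hx', h2_mul hx hx']
  have h : ∑ p ∈ P, hp p (x * x') y = ∑ p ∈ P, hp p x y + ∑ p ∈ P, hp p x' y := by
    rw [← sum_add_distrib]
    refine sum_congr rfl fun p hp => ?_
    have := Fact.mk (hP p hp)
    exact hp_mul p hx hx'
  rw [h]
  ring

/-- the set of the odd primes up to `N` -/
def OP (N : ℕ) : Finset ℕ := ((range (N + 1)).filter Nat.Prime).erase 2

theorem mem_OP {N p : ℕ} : p ∈ OP N ↔ p ≠ 2 ∧ p < N + 1 ∧ p.Prime := by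
  unfold OP
  rw [mem_erase, mem_filter, mem_range]

theorem OP_prime {N p : ℕ} (h : p ∈ OP N) : p.Prime := (mem_OP.1 h).2.2

/-! ### the generators -/

theorem val_self (p : ℕ) [Fact p.Prime] : padicValInt p (p : ℤ) = 1 := padicValInt_self

theorem val_neg_one (p : ℕ) [Fact p.Prime] : padicValInt p (-1) = 0 :=
  val_eq_zero fun h => by
    have h1 := Int.natCast_dvd.1 h
    simp only [Int.natAbs_neg, Int.natAbs_one, Nat.dvd_one] at h1
    exact (Fact.out : p.Prime).one_lt.ne' h1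

theorem val_other {p q : ℕ} [Fact p.Prime] (hq : q.Prime) (hpq : p ≠ q) :
    padicValInt p (q : ℤ) = 0 :=
  val_eq_zero fun h => hpq ((Nat.prime_dvd_prime_iff_eq Fact.out hq).1 (Int.natCast_dvd_natCast.1 h))

theorem e2_nat {p : ℕ} : e2 (p : ℤ) = s4 p := by
  unfold e2 s4
  have h : ((p : ℤ) % 4 = 3) ↔ p % 4 = 3 := by omega
  simp only [h]

theorem odd_prime {p : ℕ} (hp : p.Prime) (h2 : p ≠ 2) : p % 2 = 1 :=
  (hp.eq_two_or_odd).resolve_left h2

theorem sum_single' {P : Finset ℕ} {p : ℕ} (hp' : p ∈ P) (f : ℕ → ZMod 2)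
    (h : ∀ q ∈ P, q ≠ p → f q = 0) : ∑ q ∈ P, f q = f p :=
  sum_eq_single_of_mem p hp' h

theorem two_val (x : ℤ) (hx : ¬ (2 : ℤ) ∣ x) : padicValInt 2 x = 0 :=
  val_eq_zero (p := 2) (by exact_mod_cast hx)

theorem h2_odd {x y : ℤ} (hx : ¬ (2 : ℤ) ∣ x) (hy : ¬ (2 : ℤ) ∣ y) : h2 x y = e2 x * e2 y := by
  unfold h2
  rw [two_val x hx, two_val y hy]
  simp

theorem val_two_two : padicValInt 2 2 = 1 := by
  have := val_self 2
  exact_mod_cast this

theorem h2_two {y : ℤ} (hy : ¬ (2 : ℤ) ∣ y) : h2 2 y = w2 y := by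
  unfold h2
  rw [two_val y hy, val_two_two]
  have h1 : e2 ((2 : ℤ) / 2 ^ 1) = 0 := by decide
  rw [h1]
  simp

theorem h2_two_two : h2 2 2 = 0 := by
  unfold h2
  rw [val_two_two]
  decide

theorem hr_pos {x y : ℤ} (hy : 0 < y) : hr x y = 0 := by
  unfold hr
  rw [if_neg]
  rintro ⟨-, h⟩
  linarith

theorem prime_not_two_dvd {p : ℕ} (hp : p.Prime) (h2 : p ≠ 2) : ¬ (2 : ℤ) ∣ (p : ℤ) := by
  have := odd_prime hp h2
  omega

theorem hp_other {p q : ℕ} [Fact p.Prime] (hq : q.Prime) (hpq : p ≠ q) {x : ℤ}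
    (hx : padicValInt p x = 0) : hp p x q = 0 :=
  hp_eq_zero p hx (val_other hq hpq)

/-- the symbol of `x` (a unit at `q`) and `q` -/
theorem hp_unit_self {q : ℕ} [Fact q.Prime] {x : ℤ} (hx : padicValInt q x = 0) :
    hp q x q = nz q x := by
  unfold hp
  rw [hx, val_self]
  simp

theorem g_neg_neg (N : ℕ) : tot (OP N) (-1) (-1) = 0 := by
  unfold tot
  have h1 : ∑ p ∈ OP N, hp p (-1) (-1) = 0 := sum_eq_zero fun p hp => by
    have := Fact.mk (OP_prime hp)
    exact hp_eq_zero p (val_neg_one p) (val_neg_one p)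
  rw [h1, h2_odd (by omega) (by omega)]
  decide

theorem g_neg_two (N : ℕ) : tot (OP N) (-1) 2 = 0 := by
  unfold tot
  have h1 : ∑ p ∈ OP N, hp p (-1) 2 = 0 := sum_eq_zero fun p hp => by
    have := Fact.mk (OP_prime hp)
    exact_mod_cast hp_other (p := p) Nat.prime_two (mem_OP.1 hp).1 (val_neg_one p)
  rw [h1, h2_comm, h2_two (by omega), hr_pos (by norm_num)]
  decide

theorem g_two_two (N : ℕ) : tot (OP N) 2 2 = 0 := by
  unfold tot
  have h1 : ∑ p ∈ OP N, hp p 2 2 = 0 := sum_eq_zero fun p hp => by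
    have := Fact.mk (OP_prime hp)
    have h := val_other (p := p) Nat.prime_two (mem_OP.1 hp).1
    exact hp_eq_zero p (by exact_mod_cast h) (by exact_mod_cast h)
  rw [h1, h2_two_two, hr_pos (by norm_num)]
  decide

theorem g_neg_prime {N q : ℕ} (hq : q ∈ OP N) : tot (OP N) (-1) q = 0 := by
  have hqp := OP_prime hq
  have hq2 := (mem_OP.1 hq).1
  have := Fact.mk hqp
  unfold tot
  have h1 : ∑ p ∈ OP N, hp p (-1) q = nz q (-1) := by
    rw [sum_single' hq _ fun p hp hpq => ?_, hp_unit_self (val_neg_one q)]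
    have := Fact.mk (OP_prime hp)
    exact hp_other hqp hpq (val_neg_one p)
  rw [h1, h2_odd (by omega) (prime_not_two_dvd hqp hq2), hr_pos (by exact_mod_cast hqp.pos), e2_nat]
  have h2 : e2 (-1) = 1 := by decide
  have h3 : nz q (-1) = s4 q := by
    unfold nz s4
    have h := ZMod.exists_sq_eq_neg_one_iff (p := q)
    by_cases h4 : q % 4 = 3
    · rw [if_pos h4, if_neg]
      intro h5
      push_cast at h5
      exact (h.1 h5) h4
    · rw [if_neg h4, if_pos]
      push_cast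
      exact h.2 h4
  rw [h2, h3, one_mul, zero_add]
  exact CharTwo.add_self_eq_zero _

theorem g_two_prime {N q : ℕ} (hq : q ∈ OP N) : tot (OP N) 2 q = 0 := by
  have hqp := OP_prime hq
  have hq2 := (mem_OP.1 hq).1
  have := Fact.mk hqp
  have hv : ∀ p ∈ OP N, padicValInt p 2 = 0 := fun p hp => by
    have := Fact.mk (OP_prime hp)
    exact_mod_cast val_other (p := p) Nat.prime_two (mem_OP.1 hp).1
  unfold tot
  have h1 : ∑ p ∈ OP N, hp p 2 q = nz q 2 := by
    rw [sum_single' hq _ fun p hp hpq => ?_, hp_unit_self (hv q hq)]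
    have := Fact.mk (OP_prime hp)
    exact hp_other hqp hpq (hv p hp)
  rw [h1, h2_two (prime_not_two_dvd hqp hq2), hr_pos (by exact_mod_cast hqp.pos)]
  have h3 : nz q 2 = w2 q := by
    unfold nz w2
    have h := ZMod.exists_sq_eq_two_iff (p := q) hq2
    have hodd := odd_prime hqp hq2
    by_cases h4 : (q : ℤ) % 8 = 3 ∨ (q : ℤ) % 8 = 5
    · rw [if_pos h4, if_neg]
      intro h5
      push_cast at h5
      have := h.1 h5
      omega
    · rw [if_neg h4, if_pos]
      push_cast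
      refine h.2 ?_
      omega
  rw [h3, zero_add]
  exact CharTwo.add_self_eq_zero _

theorem nz_one (q : ℕ) : nz q 1 = 0 := by
  unfold nz
  rw [if_pos]
  push_cast
  exact ⟨1, (mul_one 1).symm⟩

theorem g_prime_self {N q : ℕ} (hq : q ∈ OP N) : tot (OP N) q q = 0 := by
  have hqp := OP_prime hq
  have hq2 := (mem_OP.1 hq).1
  have := Fact.mk hqp
  unfold tot
  have h1 : ∑ p ∈ OP N, hp p q q = s4 q := by
    rw [sum_single' hq _ fun p hp hpq => ?_]
    · unfold hp
      rw [val_self, pow_one, Int.ediv_self (by exact_mod_cast hqp.ne_zero), nz_one]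
      simp
    · have := Fact.mk (OP_prime hp)
      exact hp_other hqp hpq (val_other hqp hpq)
  rw [h1, h2_odd (prime_not_two_dvd hqp hq2) (prime_not_two_dvd hqp hq2),
    hr_pos (by exact_mod_cast hqp.pos), e2_nat]
  unfold s4
  by_cases h : q % 4 = 3
  · simp only [h, if_true]
    decide
  · simp only [h, if_false]
    decide

theorem g_prime_prime {N p q : ℕ} (hp' : p ∈ OP N) (hq : q ∈ OP N) (hpq : p ≠ q) :
    tot (OP N) p q = 0 := by
  have hqp := OP_prime hq
  have hq2 := (mem_OP.1 hq).1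
  have hpp := OP_prime hp'
  have hp2 := (mem_OP.1 hp').1
  have := Fact.mk hqp
  have := Fact.mk hpp
  unfold tot
  have h1 : ∑ r ∈ OP N, hp r p q = nz q p + nz p q := by
    rw [← add_sum_erase _ _ hq, hp_unit_self (val_other hpp (Ne.symm hpq))]
    congr 1
    rw [sum_single' (mem_erase.2 ⟨hpq, hp'⟩) _ fun r hr hrp => ?_, hp_comm,
      hp_unit_self (val_other hqp hpq)]
    have := Fact.mk (OP_prime (mem_of_mem_erase hr))
    exact hp_eq_zero r (val_other hpp hrp) (val_other hqp (ne_of_mem_erase hr))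
  rw [h1, h2_odd (prime_not_two_dvd hpp hp2) (prime_not_two_dvd hqp hq2),
    hr_pos (by exact_mod_cast hqp.pos), e2_nat, e2_nat]
  have ho1 := odd_prime hpp hp2
  have ho2 := odd_prime hqp hq2
  have key : nz q p + nz p q = s4 p * s4 q := by
    unfold nz s4
    rw [Int.cast_natCast, Int.cast_natCast]
    by_cases h3 : p % 4 = 3
    · by_cases h4 : q % 4 = 3
      · have h := ZMod.exists_sq_eq_prime_iff_of_mod_four_eq_three (p := p) (q := q) h3 h4 hpq
        by_cases h5 : IsSquare (q : ZMod p)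
        · have h6 := h.1 h5
          simp only [h3, h4, h5, h6, if_true, if_false]
          decide
        · have h6 : IsSquare (p : ZMod q) := by
            by_contra h7
            exact h5 (h.2 h7)
          simp only [h3, h4, h5, h6, if_true, if_false]
          decide
      · have h := ZMod.exists_sq_eq_prime_iff_of_mod_four_eq_one (p := q) (q := p)
          (by omega) hp2
        rw [if_neg h4, mul_zero]
        by_cases h5 : IsSquare (p : ZMod q)
        · rw [if_pos h5, if_pos (h.1 h5)]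
          decide
        · rw [if_neg h5, if_neg fun h6 => h5 (h.2 h6)]
          decide
    · have h := ZMod.exists_sq_eq_prime_iff_of_mod_four_eq_one (p := p) (q := q)
        (by omega) hq2
      rw [if_neg h3, zero_mul]
      by_cases h5 : IsSquare (p : ZMod q)
      · rw [if_pos h5, if_pos (h.2 h5)]
        decide
      · rw [if_neg h5, if_neg fun h6 => h5 (h.1 h6)]
        decide
  rw [key, zero_add]
  exact CharTwo.add_self_eq_zero _

/-! ### the induction -/

/-- `-1`, `2` and the odd primes up to `N` -/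
def Gen (N : ℕ) (x : ℤ) : Prop := x = -1 ∨ x = 2 ∨ ∃ q ∈ OP N, x = q

theorem gen_gen {N : ℕ} {x y : ℤ} (hx : Gen N x) (hy : Gen N y) : tot (OP N) x y = 0 := by
  rcases hx with rfl | rfl | ⟨p, hp', rfl⟩ <;> rcases hy with rfl | rfl | ⟨q, hq, rfl⟩
  · exact g_neg_neg N
  · exact g_neg_two N
  · exact g_neg_prime hq
  · rw [tot_comm]
    exact g_neg_two N
  · exact g_two_two N
  · exact g_two_prime hq
  · rw [tot_comm]
    exact g_neg_prime hp'
  · rw [tot_comm]
    exact g_two_prime hp'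
  · by_cases h : p = q
    · subst h
      exact g_prime_self hp'
    · exact g_prime_prime hp' hq h

theorem tot_one (N : ℕ) (y : ℤ) : tot (OP N) 1 y = 0 := by
  have h := tot_mul (OP N) (fun p => OP_prime) (x := 1) (x' := 1) y one_ne_zero one_ne_zero
  rw [mul_one, CharTwo.add_self_eq_zero] at h
  exact h

/-- from the generators to all integers with prime factors up to `N` -/
theorem all_of_gen {N : ℕ} {y : ℤ} (h : ∀ x, Gen N x → tot (OP N) x y = 0) (x : ℤ) (hx : x ≠ 0)
    (hN : ∀ p : ℕ, p.Prime → (p : ℤ) ∣ x → p ≤ N) : tot (OP N) x y = 0 := by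
  have key : ∀ n : ℕ, n ≠ 0 → (∀ p : ℕ, p.Prime → p ∣ n → p ≤ N) →
      tot (OP N) (n : ℤ) y = 0 := by
    intro n
    induction n using Nat.recOnMul with
    | zero => exact fun h0 => absurd rfl h0
    | one => exact fun _ _ => by exact_mod_cast tot_one N y
    | prime p hp' =>
      intro _ hN
      have h1 := hN p hp' dvd_rfl
      by_cases h2 : p = 2
      · exact h _ (Or.inr (Or.inl (by rw [h2]; rfl)))
      · exact h _ (Or.inr (Or.inr ⟨p, mem_OP.2 ⟨h2, by omega, hp'⟩, rfl⟩))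
    | mul a b iha ihb =>
      intro hab hN
      have ha : a ≠ 0 := left_ne_zero_of_mul hab
      have hb : b ≠ 0 := right_ne_zero_of_mul hab
      rw [Nat.cast_mul, tot_mul (OP N) (fun p => OP_prime) y (by exact_mod_cast ha)
        (by exact_mod_cast hb), iha ha fun p hp' hd => hN p hp' (hd.mul_right _),
        ihb hb fun p hp' hd => hN p hp' (hd.mul_left _), add_zero]
  have h1 := key x.natAbs (Int.natAbs_ne_zero.2 hx) fun p hp' hd =>
    hN p hp' (Int.natCast_dvd.2 hd)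
  rcases Int.natAbs_eq x with h2 | h2
  · rw [h2]
    exact h1
  · rw [h2, ← neg_one_mul, tot_mul (OP N) (fun p => OP_prime) y (by norm_num)
      (by exact_mod_cast Int.natAbs_ne_zero.2 hx), h1, h _ (Or.inl rfl), add_zero]

theorem mainR (x y : ℤ) (hx : x ≠ 0) (hy : y ≠ 0) :
    hr x y + h2 x y + ∑ p ∈ (x * y).natAbs.primeFactors.erase 2, hp p x y = 0 := by
  obtain ⟨N, hN⟩ : ∃ N : ℕ, N = (x * y).natAbs := ⟨_, rfl⟩
  have hxy : x * y ≠ 0 := mul_ne_zero hx hy
  have hle : ∀ p : ℕ, (p : ℤ) ∣ x * y → p ≤ N := fun p hd => by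
    rw [hN]
    exact Nat.le_of_dvd (Int.natAbs_pos.2 hxy) (Int.natCast_dvd.1 hd)
  have h1 : tot (OP N) x y = 0 := by
    refine all_of_gen (fun x' hx' => ?_) x hx fun p _ hd => hle p (hd.mul_right _)
    rw [tot_comm]
    refine all_of_gen (fun y' hy' => ?_) y hy fun p _ hd => hle p (hd.mul_left _)
    exact gen_gen hy' hx'
  have h2 := tot_eq (OP N) hx hy (fun p hp' => ?_) fun p hp' => ⟨OP_prime hp', (mem_OP.1 hp').1⟩
  · rw [h1] at h2
    exact h2
  · obtain ⟨h3, h4⟩ := mem_erase.1 hp'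
    have h5 := Nat.mem_primeFactors.1 h4
    exact mem_OP.2 ⟨h3, by have := hle p (Int.natCast_dvd.2 h5.2.1); omega, h5.1⟩

end Pool.Agent.U46.GZ
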