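import Pool.Agent.U79.GZ.Stm
import Pool.Agent.U46.GZ.REC0

/-!
# Project GZ, part REC: the product formula
-/

set_option autoImplicit false

namespace Pool.Agent.U46.GZ

theorem t_REC : Pool.Agent.U79.GZ.S_REC := mainR

end Pool.Agent.U46.GZ
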